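import Pool.Agent.helper7.AL.Spec
import Pool.Agent.helper11.TX.Spec

set_option autoImplicit false

namespace Pool.Agent.AL

open Finset Pool.Agent.helper85.FC Pool.Agent.helper11.MK

theorem CNT_free (l : ℕ) (h5 : 5 ≤ l) (u₀ : ℤ) : ∃ h : ℤ, ¬ (l : ℤ) ∣ h ∧ ¬ (l : ℤ) ∣ h + u₀ := by
  have h1 : ¬ (l : ℤ) ∣ 1 := fun h => by
    have := Int.le_of_dvd (by norm_num) h
    omega
  have h2 : ¬ (l : ℤ) ∣ 2 := fun h => by
    have := Int.le_of_dvd (by norm_num) h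
    omega
  by_cases h : (l : ℤ) ∣ 1 + u₀
  · refine ⟨2, h2, fun h' => h1 ?_⟩
    have := dvd_sub h' h
    have e : 2 + u₀ - (1 + u₀) = 1 := by ring
    rwa [e] at this
  · exact ⟨1, h1, h⟩

theorem CNT_inv (l : ℕ) (hl : l.Prime) (a : ℤ) (ha : ¬ (l : ℤ) ∣ a) (c : ℤ) : ∃ h : ℤ, (l : ℤ) ∣ c - a * h := by
  have hc : IsCoprime (l : ℤ) a := (Nat.prime_iff_prime_int.1 hl).coprime_iff_not_dvd.2 ha
  obtain ⟨s, t, hst⟩ := hc
  refine ⟨t * c, s * c, ?_⟩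
  linear_combination (-c) * hst

/-- the class of `c` is possible -/
theorem CNT_locb (a b : ℕ) (u₀ : ℤ) (l : ℕ) (hl : l.Prime) (h5 : 5 ≤ l) (hb : l ∣ b) (ha : ¬ l ∣ a) (c : ℤ)
    (hc : ¬ (l : ℤ) ∣ c) (hc2 : ¬ (l : ℤ) ∣ c + a * u₀) : Loc a b u₀ l c := by
  have ha' : ¬ (l : ℤ) ∣ (a : ℤ) := fun h => ha (Int.natCast_dvd_natCast.1 h)
  have hb' : (l : ℤ) ∣ (b : ℤ) := Int.natCast_dvd_natCast.2 hb
  obtain ⟨h, hh⟩ := CNT_inv l hl a ha' c
  obtain ⟨h', h1, h2⟩ := CNT_free l h5 u₀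
  refine ⟨h, h', ?_, fun hd => hc ?_, fun hd => hc2 ?_, h1, h2⟩
  · have := dvd_add hh (hb'.mul_right h')
    have e : c - a * h + b * h' = c - (a * h - b * h') := by ring
    rwa [e] at this
  · have := dvd_add hh (hd.mul_left (a : ℤ))
    have e : c - a * h + a * h = c := by ring
    rwa [e] at this
  · have := dvd_add hh (hd.mul_left (a : ℤ))
    have e : c - a * h + a * (h + u₀) = c + a * u₀ := by ring
    rwa [e] at this

theorem CNT_loca (a b : ℕ) (u₀ : ℤ) (l : ℕ) (hl : l.Prime) (h5 : 5 ≤ l) (ha : l ∣ a) (hb : ¬ l ∣ b) (c : ℤ)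
    (hc : ¬ (l : ℤ) ∣ c) (hc2 : ¬ (l : ℤ) ∣ c + -(b * u₀)) : Loc a b u₀ l c := by
  have hb' : ¬ (l : ℤ) ∣ (b : ℤ) := fun h => hb (Int.natCast_dvd_natCast.1 h)
  have ha' : (l : ℤ) ∣ (a : ℤ) := Int.natCast_dvd_natCast.2 ha
  obtain ⟨h', hh⟩ := CNT_inv l hl b hb' (-c)
  obtain ⟨h, h1, h2⟩ := CNT_free l h5 u₀
  refine ⟨h, h', ?_, h1, h2, fun hd => hc ?_, fun hd => hc2 ?_⟩
  · have := dvd_add hh (ha'.mul_right h)
    have e : -c - b * h' + a * h = -(c - (a * h - b * h')) := by ring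
    rw [e] at this
    exact (dvd_neg.1 this)
  · have := dvd_add hh (hd.mul_left (b : ℤ))
    have e : -c - b * h' + b * h' = -c := by ring
    rw [e] at this
    exact dvd_neg.1 this
  · have := dvd_add hh (hd.mul_left (b : ℤ))
    have e : -c - b * h' + b * (h' + u₀) = -(c + -(b * u₀)) := by ring
    rw [e] at this
    exact dvd_neg.1 this

theorem CNT_one (l : ℕ) (w : ℤ) : #{r ∈ range l | (l : ℤ) ∣ ((r : ℕ) : ℤ) + w} ≤ 1 := by
  rw [Finset.card_le_one]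
  intro r hr s hs
  rw [mem_filter, mem_range] at hr hs
  have h1 : (l : ℤ) ∣ (r : ℤ) - s := by
    have := dvd_sub hr.2 hs.2
    have e : (r : ℤ) + w - (s + w) = r - s := by ring
    rwa [e] at this
  have h2 : (r : ℤ) - s = 0 := by
    apply Int.eq_zero_of_abs_lt_dvd h1
    rw [abs_lt]
    constructor <;> omega
  omega

open Classical in
theorem CNT_ge (a b : ℕ) (u₀ : ℤ) (l : ℕ) (w : ℤ)
    (h : ∀ c : ℤ, ¬ (l : ℤ) ∣ c → ¬ (l : ℤ) ∣ c + w → Loc a b u₀ l c) :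
    (l : ℝ) - 2 ≤ #{r ∈ range l | Loc a b u₀ l (r : ℕ)} := by
  have h1 : range l ⊆ ({r ∈ range l | Loc a b u₀ l (r : ℕ)} ∪ {r ∈ range l | (l : ℤ) ∣ ((r : ℕ) : ℤ) + 0}) ∪
      {r ∈ range l | (l : ℤ) ∣ ((r : ℕ) : ℤ) + w} := by
    intro r hr
    rw [mem_union, mem_union, mem_filter, mem_filter, mem_filter]
    by_cases h2 : (l : ℤ) ∣ (r : ℤ) + 0
    · exact Or.inl (Or.inr ⟨hr, h2⟩)
    · by_cases h3 : (l : ℤ) ∣ (r : ℤ) + w
      · exact Or.inr ⟨hr, h3⟩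
      · exact Or.inl (Or.inl ⟨hr, h _ (by rwa [add_zero] at h2) h3⟩)
  have h2 := (card_le_card h1).trans ((card_union_le _ _).trans (Nat.add_le_add_right (card_union_le _ _) _))
  rw [card_range] at h2
  have h3 := CNT_one l 0
  have h4 := CNT_one l w
  have h5 : l ≤ #{r ∈ range l | Loc a b u₀ l (r : ℕ)} + 2 := by omega
  have h6 : (l : ℝ) ≤ (#{r ∈ range l | Loc a b u₀ l (r : ℕ)} : ℝ) + 2 := by exact_mod_cast h5
  linarith

theorem CNT_per (a b : ℕ) (u₀ : ℤ) (l : ℕ) (c k : ℤ) : Loc a b u₀ l (c + l * k) ↔ Loc a b u₀ l c := by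
  constructor
  · rintro ⟨h, h', h1, h2⟩
    refine ⟨h, h', ?_, h2⟩
    have := dvd_sub h1 (dvd_mul_right (l : ℤ) k)
    have e : c + l * k - (a * h - b * h') - l * k = c - (a * h - b * h') := by ring
    rwa [e] at this
  · rintro ⟨h, h', h1, h2⟩
    refine ⟨h, h', ?_, h2⟩
    have := dvd_add h1 (dvd_mul_right (l : ℤ) k)
    have e : c - (a * h - b * h') + l * k = c + l * k - (a * h - b * h') := by ring
    rwa [e] at this

open Classical in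
theorem CNT_two (a b : ℕ) (u₀ : ℤ) (hu : Even u₀) : (1 : ℝ) ≤ #{r ∈ range 2 | Loc a b u₀ 2 (r : ℕ)} := by
  have h1 : ¬ (2 : ℤ) ∣ 1 := by decide
  have h2 : ¬ (2 : ℤ) ∣ 1 + u₀ := by
    intro h
    obtain ⟨v, hv⟩ := hu
    omega
  have h0 : Loc a b u₀ 2 (a - b : ℤ) := ⟨1, 1, by simp, by exact_mod_cast h1, by exact_mod_cast h2, by exact_mod_cast h1, by exact_mod_cast h2⟩
  have h3 : (((a : ℤ) - b) % 2).toNat ∈ (range 2).filter (fun r : ℕ => Loc a b u₀ 2 (r : ℕ)) := by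
    rw [mem_filter, mem_range]
    have hr : 0 ≤ ((a : ℤ) - b) % 2 := Int.emod_nonneg _ (by norm_num)
    refine ⟨by omega, ?_⟩
    rw [Int.toNat_of_nonneg hr, ← CNT_per a b u₀ 2 _ (((a : ℤ) - b) / 2)]
    have e : ((a : ℤ) - b) % 2 + ((2 : ℕ) : ℤ) * (((a : ℤ) - b) / 2) = a - b := Int.emod_add_mul_ediv _ _
    rw [e]
    exact h0
  have h4 : 1 ≤ #{r ∈ range 2 | Loc a b u₀ 2 (r : ℕ)} := card_pos.2 ⟨_, h3⟩
  exact_mod_cast h4

theorem CNT (h : Pool.Agent.helper11.TX.CR_stmt) : CNT_stmt := by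
  classical
  intro a b u₀ ha hb hab hu
  obtain ⟨P, hP⟩ : ∃ P : Finset ℕ, P = (6 * a * b).primeFactors := ⟨_, rfl⟩
  obtain ⟨R, hR⟩ : ∃ R : Finset ℕ, R = (a * b).primeFactors.filter (fun l => 5 ≤ l) := ⟨_, rfl⟩
  obtain ⟨f, hf⟩ : ∃ f : ℕ → ℤ → ℝ, f = fun l c => if Loc a b u₀ l c then 1 else 0 := ⟨_, rfl⟩
  have hab0 : a * b ≠ 0 := Nat.mul_ne_zero ha.ne' hb.ne'
  have h6 : 6 * a * b ≠ 0 := by
    rw [mul_assoc]
    exact Nat.mul_ne_zero (by norm_num) hab0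
  have hPp : ∀ l ∈ P, l.Prime := by
    intro l hl
    rw [hP] at hl
    exact Nat.prime_of_mem_primeFactors hl
  have hf0 : ∀ l c, 0 ≤ f l c := by
    intro l c
    rw [hf]
    simp only
    split_ifs <;> norm_num
  have hsum : ∀ l : ℕ, ∑ r ∈ range l, f l r = #{r ∈ range l | Loc a b u₀ l (r : ℕ)} := by
    intro l
    rw [hf, Finset.sum_boole]
  have hPR : P = insert 2 (insert 3 R) := by
    ext l
    rw [hP, hR, mem_insert, mem_insert, mem_filter, Nat.mem_primeFactors, Nat.mem_primeFactors]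
    constructor
    · rintro ⟨hl, hd, -⟩
      rw [mul_assoc, hl.dvd_mul] at hd
      have hl2 := hl.two_le
      rcases hd with hd | hd
      · have h7 : l ∣ 2 * 3 := hd
        rw [hl.dvd_mul, Nat.prime_dvd_prime_iff_eq hl Nat.prime_two, Nat.prime_dvd_prime_iff_eq hl Nat.prime_three] at h7
        tauto
      · by_cases h5 : 5 ≤ l
        · exact Or.inr (Or.inr ⟨⟨hl, hd, hab0⟩, h5⟩)
        · have h7 : l = 2 ∨ l = 3 ∨ l = 4 := by omega
          rcases h7 with h7 | h7 | h7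
          · exact Or.inl h7
          · exact Or.inr (Or.inl h7)
          · rw [h7] at hl
            exact absurd hl (by decide)
    · rintro (rfl | rfl | ⟨⟨hl, hd, -⟩, -⟩)
      · exact ⟨Nat.prime_two, Dvd.intro (3 * a * b) (by ring), h6⟩
      · exact ⟨Nat.prime_three, Dvd.intro (2 * a * b) (by ring), h6⟩
      · refine ⟨hl, ?_, h6⟩
        rw [mul_assoc]
        exact hd.mul_left 6
  have hn3 : 3 ∉ R := by
    rw [hR, mem_filter]
    rintro ⟨-, h7⟩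
    omega
  have hn2 : 2 ∉ insert 3 R := by
    rw [hR, mem_insert, mem_filter]
    rintro (h7 | ⟨-, h7⟩)
    · omega
    · omega
  have hprod : ∀ g : ℕ → ℝ, ∏ l ∈ P, g l = g 2 * (g 3 * ∏ l ∈ R, g l) := by
    intro g
    rw [hPR, prod_insert hn2, prod_insert hn3]
  refine ⟨∏ l ∈ P, ∑ r ∈ range l, f l r, ?_⟩
  intro u M
  have hcount : ∑ c ∈ Ioc u (u + M), ∏ l ∈ P, f l c = #{c ∈ Ioc u (u + M) | S0 a b u₀ c} := by
    rw [Finset.card_filter]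
    push_cast
    apply sum_congr rfl
    intro c _
    rw [hf]
    simp only
    by_cases hS : S0 a b u₀ c
    · rw [if_pos hS]
      apply prod_eq_one
      intro l hl
      rw [if_pos]
      rw [hP, Nat.mem_primeFactors] at hl
      exact hS l hl.1 hl.2.1
    · rw [if_neg hS]
      have hS' : ∃ l : ℕ, l.Prime ∧ l ∣ 6 * a * b ∧ ¬ Loc a b u₀ l c := by
        by_contra hne
        apply hS
        intro l hl hd
        by_contra hL
        exact hne ⟨l, hl, hd, hL⟩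
      obtain ⟨l, hl, hd, hL⟩ := hS'
      apply prod_eq_zero (i := l)
      · rw [hP, Nat.mem_primeFactors]
        exact ⟨hl, hd, h6⟩
      · rw [if_neg hL]
  have hmain := (h P f hPp (fun l _ c => hf0 l c) (by
    intro l _ c k
    rw [hf]
    simp only
    rw [CNT_per a b u₀ l c k]) u M).2
  rw [hcount] at hmain
  refine le_trans ?_ hmain
  have hlpos : ∀ l ∈ R, (0 : ℝ) < l := by
    intro l hl
    rw [hR, mem_filter] at hl
    have : 0 < l := by omega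
    exact_mod_cast this
  have hR2 : ∀ l ∈ R, (1 - 2 / (l : ℝ)) ≤ (∑ r ∈ range l, f l r) / l := by
    intro l hl
    have hl0 := hlpos l hl
    rw [hR, mem_filter, Nat.mem_primeFactors] at hl
    obtain ⟨⟨hlp, hld, -⟩, h5⟩ := hl
    rw [le_div_iff₀ hl0, hsum l]
    have e : (1 - 2 / (l : ℝ)) * l = l - 2 := by field_simp
    rw [e]
    rw [hlp.dvd_mul] at hld
    rcases hld with hld | hld
    · have hnb : ¬ l ∣ b := fun hb' => by
        have := Nat.dvd_gcd hld hb'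
        rw [Nat.Coprime.gcd_eq_one hab] at this
        exact hlp.one_lt.ne' (Nat.dvd_one.1 this)
      exact CNT_ge a b u₀ l _ (fun c hc hc2 => CNT_loca a b u₀ l hlp h5 hld hnb c hc hc2)
    · have hna : ¬ l ∣ a := fun ha' => by
        have := Nat.dvd_gcd ha' hld
        rw [Nat.Coprime.gcd_eq_one hab] at this
        exact hlp.one_lt.ne' (Nat.dvd_one.1 this)
      exact CNT_ge a b u₀ l _ (fun c hc hc2 => CNT_locb a b u₀ l hlp h5 hld hna c hc hc2)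
  have hR0 : ∀ l ∈ R, 0 ≤ (1 - 2 / (l : ℝ)) := by
    intro l hl
    rw [hR, mem_filter] at hl
    have h5 : (5 : ℝ) ≤ l := by exact_mod_cast hl.2
    rw [sub_nonneg, div_le_one (by linarith)]
    linarith
  have hle : ∏ l ∈ R, (1 - 2 / (l : ℝ)) ≤ ∏ l ∈ R, ((∑ r ∈ range l, f l r) / l) := prod_le_prod hR0 hR2
  have hX0 : 0 ≤ ∏ l ∈ R, (1 - 2 / (l : ℝ)) := prod_nonneg hR0
  have e1 : ((M : ℝ) / (∏ l ∈ P, (l : ℝ)) - 1) * ∏ l ∈ P, ∑ r ∈ range l, f l r =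
      M * (((∑ r ∈ range 2, f 2 r) / 2) * (((∑ r ∈ range 3, f 3 r) / 3) * ∏ l ∈ R, ((∑ r ∈ range l, f l r) / l))) -
      ∏ l ∈ P, ∑ r ∈ range l, f l r := by
    rw [prod_div_distrib, hprod (fun l => (l : ℝ)), hprod (fun l => ∑ r ∈ range l, f l r)]
    have hne : ∏ l ∈ R, (l : ℝ) ≠ 0 := prod_ne_zero_iff.2 fun l hl => (hlpos l hl).ne'
    push_cast
    field_simp
  rw [e1]
  have h2 : (1 : ℝ) ≤ ∑ r ∈ range 2, f 2 r := by
    rw [hsum 2]
    exact CNT_two a b u₀ hu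
  have h3 : (∑ r ∈ range 3, f 3 r) = #{r ∈ range 3 | Loc a b u₀ 3 (r : ℕ)} := hsum 3
  rw [h3]
  have hN : (0 : ℝ) ≤ (#{r ∈ range 3 | Loc a b u₀ 3 (r : ℕ)} : ℝ) := Nat.cast_nonneg _
  have hM : (0 : ℝ) ≤ M := Nat.cast_nonneg M
  obtain ⟨N3, hN3⟩ : ∃ N3 : ℝ, N3 = (#{r ∈ range 3 | Loc a b u₀ 3 (r : ℕ)} : ℝ) := ⟨_, rfl⟩
  obtain ⟨A, hA⟩ : ∃ A : ℝ, A = ∑ r ∈ range 2, f 2 r := ⟨_, rfl⟩
  obtain ⟨X, hX⟩ : ∃ X : ℝ, X = ∏ l ∈ R, (1 - 2 / (l : ℝ)) := ⟨_, rfl⟩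
  obtain ⟨Z, hZ⟩ : ∃ Z : ℝ, Z = ∏ l ∈ R, ((∑ r ∈ range l, f l r) / l) := ⟨_, rfl⟩
  rw [← hN3] at hN ⊢
  rw [← hA] at h2 ⊢
  rw [← hX, ← hZ] at hle
  rw [← hX] at hX0
  rw [← hR, ← hX, ← hZ]
  have hfin : N3 / 6 * X ≤ A / 2 * (N3 / 3 * Z) := by
    have h8 : N3 / 6 * X ≤ 1 / 2 * (N3 / 3 * Z) := by
      have : N3 / 3 * X ≤ N3 / 3 * Z := mul_le_mul_of_nonneg_left hle (by positivity)
      linarith
    have h9 : 1 / 2 * (N3 / 3 * Z) ≤ A / 2 * (N3 / 3 * Z) :=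
      mul_le_mul_of_nonneg_right (by linarith) (mul_nonneg (by positivity) (hX0.trans hle))
    exact h8.trans h9
  have := mul_le_mul_of_nonneg_right hfin hM
  linarith

end Pool.Agent.AL
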